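import Pool.Agent.Helper14.CV.StC

/-!
# Project CV (MP_3c9520_nt), module UBof: the upper bound UB
-/

set_option autoImplicit false

open Pool.Agent.Helper14.CV

namespace Pool.Agent.Helper76.CV

/-- `G ↦ edgeF (G ∘ (1 0; 0 2^k))` as a linear map -/
private noncomputable def Lm (μ k r s : ℕ) (u1 u2 v1 v2 : ℤ) :
    (ℤ → ℤ → ℂ) →ₗ[ℂ] (ZMod (2 ^ r) → ZMod (2 ^ s) → ℂ) where
  toFun G x y := edgeF μ u1 u2 v1 v2 (act 1 0 0 (2 ^ k) G) x y
  map_add' G H := by
    funext x y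
    simp only [edgeF, act, Pi.add_apply]
    ring
  map_smul' c G := by
    funext x y
    simp only [edgeF, act, Pi.smul_apply, smul_eq_mul, RingHom.id_apply]
    ring

private theorem build (n D r s : ℕ) (V : Submodule ℂ (ZMod (2 ^ r) → ZMod (2 ^ s) → ℂ))
    (hV : Module.finrank ℂ V = D) (L : (ℤ → ℤ → ℂ) →ₗ[ℂ] (ZMod (2 ^ r) → ZMod (2 ^ s) → ℂ))
    (hmem : ∀ G ∈ NS n, L G ∈ V) (hinj : ∀ G ∈ NS n, L G = 0 → EqC G 0) :
    ∃ Θ : NS n →ₗ[ℂ] (Fin D → ℂ), ∀ G : NS n, Θ G = 0 → EqC (G : ℤ → ℤ → ℂ) 0 := by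
  have e : V ≃ₗ[ℂ] (Fin D → ℂ) := LinearEquiv.ofFinrankEq V (Fin D → ℂ) (by simp [hV])
  let L' : NS n →ₗ[ℂ] V := (L.comp (NS n).subtype).codRestrict V (fun G => hmem G G.2)
  refine ⟨e.toLinearMap.comp L', fun G hG => ?_⟩
  have h1 : e (L' G) = 0 := hG
  have h2 : L' G = 0 := by
    rw [← e.map_zero] at h1
    exact e.injective h1
  have h3 : L (G : ℤ → ℤ → ℂ) = 0 := congrArg Subtype.val h2
  exact hinj G G.2 h3

private theorem antiE_two (F : ZMod (2 ^ (2 - 1)) → ZMod (2 ^ (2 - 1)) → ℂ) (hF : F ∈ antiE 2) : F = 0 := by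
  funext x y
  have h4 := (hF x y).2.2.2
  have hneg : ∀ z : ZMod (2 ^ (2 - 1)), -z = z := by decide
  rw [hneg x, hneg y] at h4
  have : F x y + F x y = 0 := by
    nth_rewrite 1 [h4]
    ring
  have h5 : (2 : ℂ) * F x y = 0 := by linear_combination this
  simpa using h5

private theorem antiO_one (F : ZMod (2 ^ 1) → ZMod (2 ^ 1) → ℂ) (hF : F ∈ antiO 1) (hR : Rq 1 F = 0) :
    F = 0 := by
  have h1 : ∀ x y, F (x + 1) y = -F x y := by
    intro x y
    have := (hF x y).1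
    simpa using this
  have h2 : ∀ x y, F x (y + 1) = -F x y := by
    intro x y
    have := (hF x y).2.1
    simpa using this
  have hR0 : F (0 + 1) (0 * (1 + 2 * 0)⁻¹) + F (0 * (1 + 2 * 0)⁻¹) (0 + 1) - F 0 0
      - F (vv 0) (vv 0) = 0 := congrFun (congrFun hR 0) 0
  have e1 : (0 : ZMod (2 ^ 1)) * (1 + 2 * 0)⁻¹ = 0 := by rw [zero_mul]
  have e2 : (vv 0 : ZMod (2 ^ 1)) = 0 + 1 := by
    unfold vv
    have h1 : ((1 : ZMod (2 ^ 1)))⁻¹ = 1 := ZMod.inv_one _
    rw [mul_zero, add_zero, h1, mul_one, zero_add]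
    decide
  rw [e1, e2, h1, h2] at hR0
  have e3 : F (0 + 1) (0 + 1) = F 0 0 := by
    rw [h1, h2]
    ring
  rw [e3] at hR0
  have h0 : F 0 0 = 0 := by
    have : (4 : ℂ) * F 0 0 = 0 := by linear_combination -hR0
    simpa using this
  have h01 : F 0 1 = 0 := by
    have := h2 0 0
    rw [zero_add, h0, neg_zero] at this
    exact this
  have h10 : F 1 0 = 0 := by
    have := h1 0 0
    rw [zero_add, h0, neg_zero] at this
    exact this
  have h11 : F 1 1 = 0 := by
    have := h1 0 1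
    rw [zero_add, h01, neg_zero] at this
    exact this
  have hcase : ∀ z : ZMod (2 ^ 1), z = 0 ∨ z = 1 := by decide
  funext x y
  rcases hcase x with rfl | rfl <;> rcases hcase y with rfl | rfl <;> simp [h0, h01, h10, h11]

theorem hUBof : StUBof := by
  intro hBal hE1 hO1 hDimE hKerO n hn
  rcases Nat.even_or_odd' n with ⟨k, hk | hk⟩
  · -- even exponent
    subst hk
    have hk2 : 2 ≤ k := by omega
    have key : ∀ G ∈ NS (2 * k), Lm 1 k (k - 1) (k - 1) 1 1 (-1) 1 G ∈ antiE k ∧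
        (Lm 1 k (k - 1) (k - 1) 1 1 (-1) 1 G = 0 → EqC G 0) := by
      intro G hG
      have hN : NewSym (2 * k) G := hG
      have hB := (hBal k G (by omega)).1 hN
      obtain ⟨a1, a2⟩ := hE1 k _ hk2 hB
      refine ⟨a1, fun h0 => ?_⟩
      have h3 := a2 (fun x y => congrFun (congrFun h0 x) y)
      exact (hBal k G (by omega)).2.2 hN.1.1 h3
    rcases Nat.lt_or_ge k 3 with h3 | h3
    · have hk' : k = 2 := by omega
      subst hk'
      have hd : dd (2 * 2) = 0 := by simp [dd]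
      rw [hd]
      refine ⟨0, fun G _ => ?_⟩
      obtain ⟨a1, a2⟩ := key G G.2
      exact a2 (antiE_two _ a1)
    · have hd : dd (2 * k) = 4 ^ (k - 3) := by
        unfold dd
        rw [if_neg (by omega), if_pos (by omega)]
        congr 1
        omega
      rw [hd]
      exact build (2 * k) _ (k - 1) (k - 1) (antiE k) (hDimE k h3) (Lm 1 k (k - 1) (k - 1) 1 1 (-1) 1)
        (fun G hG => (key G hG).1) (fun G hG => (key G hG).2)
  · -- odd exponent
    subst hk
    have hk1 : 1 ≤ k := by omega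
    have key : ∀ G ∈ NS (2 * k + 1), Lm 0 k k k 1 0 0 1 G ∈ antiO k ∧
        Rq k (Lm 0 k k k 1 0 0 1 G) = 0 ∧ (Lm 0 k k k 1 0 0 1 G = 0 → EqC G 0) := by
      intro G hG
      have hN : NewSym (2 * k + 1) G := hG
      have hB := (hBal k G hk1).2.1 hN
      obtain ⟨a1, a2, a3⟩ := hO1 k _ hk1 hB
      refine ⟨a1, a2, fun h0 => ?_⟩
      have h3 := a3 (fun x y => congrFun (congrFun h0 x) y)
      exact (hBal k G hk1).2.2 hN.1.1 h3
    rcases Nat.lt_or_ge k 2 with h3 | h3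
    · have hk' : k = 1 := by omega
      subst hk'
      have hd : dd (2 * 1 + 1) = 0 := by simp [dd]
      rw [hd]
      refine ⟨0, fun G _ => ?_⟩
      obtain ⟨a1, a2, a3⟩ := key G G.2
      exact a3 (antiO_one _ a1 a2)
    · have hd : dd (2 * k + 1) = 2 ^ (k - 2) * (2 ^ (k - 2) + 1) / 2 := by
        unfold dd
        rw [if_neg (by omega), if_neg (by omega)]
        have : (2 * k + 1) / 2 = k := by omega
        rw [this]
      rw [hd]
      refine build (2 * k + 1) _ k k (antiO k ⊓ LinearMap.ker (Rq k)) ?_ (Lm 0 k k k 1 0 0 1)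
        (fun G hG => ⟨(key G hG).1, LinearMap.mem_ker.2 (key G hG).2.1⟩) (fun G hG => (key G hG).2.2)
      have := hKerO k h3
      omega

end Pool.Agent.Helper76.CV
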